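import Pool.Agent.W2helper31.GP.Stm5

set_option autoImplicit false

/-!
# Project GP5 (helper31), piece GAM3
-/

open Filter Topology Finset

namespace Pool.Agent.W2helper15.GP5

/-- the first factor -/
theorem h_one (p : ℝ) (hp : 0 < p) (hp1 : p ≤ 1) :
    p ^ 3 / 4 * (1 + 3 * p / 4) / (1 * (1 + p) ^ 3) ≤ 56 / 1000 * p ^ 2 := by
  rw [div_le_iff₀ (by positivity)]
  have h : 0 ≤ 56 / 1000 * (1 + p) ^ 3 - p / 4 * (1 + 3 * p / 4) := by
    nlinarith [mul_nonneg hp.le (sq_nonneg (p - 7 / 8)), sq_nonneg (p - 7 / 8), hp, hp1]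
  nlinarith [mul_nonneg (sq_nonneg p) h]

/-- the other factors -/
theorem h_more (p k : ℝ) (hp : 0 < p) (hp1 : p ≤ 1) (hk : 2 ≤ k) :
    p ^ 3 / 4 * (k + 3 * p / 4) / (k * (k + p) ^ 3) ≤
      11 / 32 * p ^ 2 * (1 / (k * (k + 1) * (k + 2))) := by
  have hk0 : 0 < k := by linarith
  rw [mul_one_div, div_le_div_iff₀ (by positivity) (by positivity)]
  have h : 0 ≤ 11 * (k + p) ^ 3 - 8 * p * (k + 3 * p / 4) * (k + 1) * (k + 2) := by
    obtain ⟨j, hj⟩ : ∃ j, k = 2 + j := ⟨k - 2, by ring⟩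
    have hj0 : 0 ≤ j := by linarith
    subst hj
    have h1 : 0 ≤ 1 - p := by linarith
    have e : 11 * (2 + j + p) ^ 3 - 8 * p * (2 + j + 3 * p / 4) * (2 + j + 1) * (2 + j + 2) =
        j ^ 3 * (11 - 8 * p) + j ^ 2 * (6 * (11 - 8 * p) + (9 * p - 6 * p ^ 2)) +
        j * (12 * (11 - 8 * p) + 4 * (9 * p - 6 * p ^ 2) + (15 * p ^ 2 - 16 * p)) +
        (8 * (11 - 8 * p) + 4 * (9 * p - 6 * p ^ 2) + 2 * (15 * p ^ 2 - 16 * p) +
          11 * p ^ 3 - 12 * p ^ 2) := by ring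
    rw [e]
    have a1 : 0 ≤ 11 - 8 * p := by linarith
    have a2 : 0 ≤ 9 * p - 6 * p ^ 2 := by nlinarith
    have a3 : 0 ≤ 12 * (11 - 8 * p) + 4 * (9 * p - 6 * p ^ 2) + (15 * p ^ 2 - 16 * p) := by
      nlinarith
    have a4 : 0 ≤ 8 * (11 - 8 * p) + 4 * (9 * p - 6 * p ^ 2) + 2 * (15 * p ^ 2 - 16 * p) +
          11 * p ^ 3 - 12 * p ^ 2 := by
      nlinarith [pow_pos hp 3, sq_nonneg p]
    have a5 : 0 ≤ 6 * (11 - 8 * p) + (9 * p - 6 * p ^ 2) := by linarith
    positivity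
  have h2 : 0 ≤ p ^ 2 * k / 32 * (11 * (k + p) ^ 3 - 8 * p * (k + 3 * p / 4) * (k + 1) * (k + 2)) :=
    mul_nonneg (by positivity) h
  nlinarith [h2]

/-- the logarithm of one factor -/
theorem fac (p k : ℝ) (hp : 0 < p) (hk : 0 < k) :
    -3 * Real.log (k + p) + 3 * Real.log (k + p / 2) + Real.log (k + 3 * p / 2) - Real.log k ≤
      p ^ 3 / 4 * (k + 3 * p / 4) / (k * (k + p) ^ 3) := by
  have h1 : -3 * Real.log (k + p) + 3 * Real.log (k + p / 2) + Real.log (k + 3 * p / 2) -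
      Real.log k = Real.log ((k + p / 2) ^ 3 * (k + 3 * p / 2) / (k * (k + p) ^ 3)) := by
    rw [Real.log_div (by positivity) (by positivity), Real.log_mul (by positivity) (by positivity),
      Real.log_mul (by positivity) (by positivity), Real.log_pow, Real.log_pow]
    push_cast
    ring
  rw [h1]
  refine (Real.log_le_sub_one_of_pos (by positivity)).trans (le_of_eq ?_)
  field_simp
  ring

theorem tele (n : ℕ) : ∑ m ∈ range n, (1 : ℝ) / (((m : ℝ) + 2) * (m + 2 + 1) * (m + 2 + 2)) =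
    1 / 12 - 1 / (2 * ((n : ℝ) + 2) * (n + 3)) := by
  induction n with
  | zero => norm_num
  | succ n ih =>
    rw [sum_range_succ, ih]
    push_cast
    have h1 : (n : ℝ) + 2 ≠ 0 := by positivity
    have h2 : (n : ℝ) + 3 ≠ 0 := by positivity
    have h3 : (n : ℝ) + 4 ≠ 0 := by positivity
    have h4 : (n : ℝ) + 2 + 1 ≠ 0 := by positivity
    have h5 : (n : ℝ) + 2 + 2 ≠ 0 := by positivity
    have h6 : (n : ℝ) + 1 + 2 ≠ 0 := by positivity
    have h7 : (n : ℝ) + 1 + 3 ≠ 0 := by positivity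
    field_simp
    ring

/-- **GAM3** -/
theorem p_gam3 : Pool.Agent.W2helper31.GP.P_GAM3 := by
  intro p hp hp1
  have t1 := Real.BohrMollerup.tendsto_log_gamma (x := 1 + p) (by linarith)
  have t2 := Real.BohrMollerup.tendsto_log_gamma (x := 1 + p / 2) (by linarith)
  have t3 := Real.BohrMollerup.tendsto_log_gamma (x := 1 + 3 * p / 2) (by linarith)
  have t4 := Real.BohrMollerup.tendsto_log_gamma (x := (1 : ℝ)) (by norm_num)
  have t := (((t1.const_mul 3).sub (t2.const_mul 3)).sub t3).add t4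
  have hle : ∀ n : ℕ, 3 * Real.BohrMollerup.logGammaSeq (1 + p) n -
      3 * Real.BohrMollerup.logGammaSeq (1 + p / 2) n -
      Real.BohrMollerup.logGammaSeq (1 + 3 * p / 2) n + Real.BohrMollerup.logGammaSeq 1 n ≤
      85 / 1000 * p ^ 2 := by
    intro n
    have e : 3 * Real.BohrMollerup.logGammaSeq (1 + p) n -
      3 * Real.BohrMollerup.logGammaSeq (1 + p / 2) n -
      Real.BohrMollerup.logGammaSeq (1 + 3 * p / 2) n + Real.BohrMollerup.logGammaSeq 1 n =
      ∑ m ∈ range (n + 1), (-3 * Real.log (1 + p + m) + 3 * Real.log (1 + p / 2 + m) +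
        Real.log (1 + 3 * p / 2 + m) - Real.log (1 + m)) := by
      unfold Real.BohrMollerup.logGammaSeq
      rw [sum_sub_distrib, sum_add_distrib, sum_add_distrib, ← mul_sum, ← mul_sum]
      ring
    rw [e, sum_range_succ']
    have h0 : -3 * Real.log (1 + p + ((0 : ℕ) : ℝ)) + 3 * Real.log (1 + p / 2 + ((0 : ℕ) : ℝ)) +
        Real.log (1 + 3 * p / 2 + ((0 : ℕ) : ℝ)) - Real.log (1 + ((0 : ℕ) : ℝ)) ≤
        56 / 1000 * p ^ 2 := by
      have h := (fac p 1 hp one_pos).trans (h_one p hp hp1)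
      simpa using h
    have h1 : ∑ m ∈ range n, (-3 * Real.log (1 + p + ((m + 1 : ℕ) : ℝ)) +
        3 * Real.log (1 + p / 2 + ((m + 1 : ℕ) : ℝ)) +
        Real.log (1 + 3 * p / 2 + ((m + 1 : ℕ) : ℝ)) - Real.log (1 + ((m + 1 : ℕ) : ℝ))) ≤
        ∑ m ∈ range n, 11 / 32 * p ^ 2 * (1 / (((m : ℝ) + 2) * (m + 2 + 1) * (m + 2 + 2))) := by
      refine sum_le_sum fun m _ => ?_
      have h := (fac p ((m : ℝ) + 2) hp (by positivity)).trans
        (h_more p ((m : ℝ) + 2) hp hp1 (by linarith [Nat.cast_nonneg (α := ℝ) m]))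
      have e1 : 1 + p + ((m + 1 : ℕ) : ℝ) = (m : ℝ) + 2 + p := by push_cast; ring
      have e2 : 1 + p / 2 + ((m + 1 : ℕ) : ℝ) = (m : ℝ) + 2 + p / 2 := by push_cast; ring
      have e3 : 1 + 3 * p / 2 + ((m + 1 : ℕ) : ℝ) = (m : ℝ) + 2 + 3 * p / 2 := by push_cast; ring
      have e4 : 1 + ((m + 1 : ℕ) : ℝ) = (m : ℝ) + 2 := by push_cast; ring
      rw [e1, e2, e3, e4]
      exact h
    rw [← mul_sum, tele] at h1
    have h2 : (0 : ℝ) ≤ 1 / (2 * ((n : ℝ) + 2) * (n + 3)) := by positivity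
    nlinarith [mul_nonneg (sq_nonneg p) h2, sq_nonneg p]
  have hlim := le_of_tendsto' t hle
  rw [Real.Gamma_one, Real.log_one, add_zero] at hlim
  have g1 : 0 < Real.Gamma (1 + p) := Real.Gamma_pos_of_pos (by linarith)
  have g2 : 0 < Real.Gamma (1 + p / 2) := Real.Gamma_pos_of_pos (by linarith)
  have g3 : 0 < Real.Gamma (1 + 3 * p / 2) := Real.Gamma_pos_of_pos (by linarith)
  have hx : Real.exp (85 / 1000 * p ^ 2) ≤ 1 + 91 / 1000 * p ^ 2 := by
    have hp2 : p ^ 2 ≤ 1 := by nlinarith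
    have hb := Real.exp_bound' (x := 85 / 1000 * p ^ 2) (by positivity) (by linarith) (n := 2)
      (by norm_num)
    refine hb.trans ?_
    norm_num [sum_range_succ, Nat.factorial]
    nlinarith [sq_nonneg p, mul_nonneg (sq_nonneg p) (sub_nonneg.2 hp2)]
  have hlog : Real.log (Real.Gamma (1 + p) ^ 3) ≤
      85 / 1000 * p ^ 2 + Real.log (Real.Gamma (1 + p / 2) ^ 3 * Real.Gamma (1 + 3 * p / 2)) := by
    rw [Real.log_mul (by positivity) (by positivity), Real.log_pow, Real.log_pow]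
    push_cast
    linarith
  have h5 : Real.Gamma (1 + p) ^ 3 ≤ Real.exp (85 / 1000 * p ^ 2) *
      (Real.Gamma (1 + p / 2) ^ 3 * Real.Gamma (1 + 3 * p / 2)) := by
    have := Real.exp_le_exp.2 hlog
    rwa [Real.exp_log (by positivity), Real.exp_add, Real.exp_log (by positivity)] at this
  exact h5.trans (mul_le_mul_of_nonneg_right hx (by positivity))

end Pool.Agent.W2helper15.GP5
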